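import Pool.Agent.H69.GN.Stm

set_option autoImplicit false

namespace Pool.Agent.H69.GN

open Finset

lemma R_pow {x y : ℕ} (h : R x y) (j : ℕ) : ∃ y', R (2 ^ j * x) y' := by
  cases h with
  | base =>
    cases j with
    | zero => exact ⟨1, by simpa using R.base⟩
    | succ i =>
      refine ⟨1, ?_⟩
      have := R.step i 1 1 R.base
      have e : 2 ^ (i + 1) * 1 = 2 ^ i * (1 + 1) := by ring
      rw [e]; exact this
  | step a _ z h =>
    refine ⟨y, ?_⟩
    have := R.step (j + a) y z h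
    have e : 2 ^ j * (2 ^ a * (y + z)) = 2 ^ (j + a) * (y + z) := by ring
    rw [e]; exact this

lemma exists_two_pow (Y X : ℕ) (hY : 1 ≤ Y) (h : Y < X) :
    ∃ a, 2 ^ a * Y < X ∧ X ≤ 2 ^ (a + 1) * Y := by
  classical
  have hex : ∃ b, X ≤ 2 ^ b * Y := by
    refine ⟨X, ?_⟩
    have := (Nat.lt_two_pow_self (n := X)).le
    nlinarith
  have hb := Nat.find_spec hex
  have hmin := fun k => Nat.find_min hex (m := k)
  rcases hk : Nat.find hex with _ | k
  · rw [hk] at hb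
    simp at hb
    omega
  · rw [hk] at hb
    refine ⟨k, ?_, hb⟩
    have := hmin k (by omega)
    omega

lemma descent : ∀ n X Y : ℕ, X ≤ n → 1 ≤ Y → Y ≤ X → (∃ k, Nat.gcd X Y = 2 ^ k) →
    ∃ x y u v, R x y ∧ 2 ^ u * x = 2 ^ v * X ∧ 2 ^ u * y = 2 ^ v * Y := by
  intro n
  induction n with
  | zero => intro X Y h1 h2 h3; omega
  | succ n ih =>
    rintro X Y hX hY hYX ⟨k, hk⟩
    rcases hYX.eq_or_lt with h | h
    · subst h
      rw [Nat.gcd_self] at hk
      refine ⟨1, 1, k, 0, R.base, ?_, ?_⟩ <;> simp [hk]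
    · obtain ⟨a, ha1, ha2⟩ := exists_two_pow Y X hY h
      have hpos : 1 ≤ 2 ^ a := Nat.one_le_two_pow
      have h2 : 2 ^ (a + 1) * Y = 2 ^ a * Y + 2 ^ a * Y := by ring
      have hg : ∃ k', Nat.gcd (2 ^ a * Y) (X - 2 ^ a * Y) = 2 ^ k' := by
        have e : Nat.gcd (2 ^ a * Y) (X - 2 ^ a * Y) = Nat.gcd (2 ^ a * Y) X := by
          rw [Nat.gcd_sub_self_right ha1.le]
        rw [e]
        have hd : Nat.gcd (2 ^ a * Y) X ∣ 2 ^ (a + k) := by
          have h3 : Nat.gcd (2 ^ a * Y) X ∣ Nat.gcd (2 ^ a) X * Nat.gcd Y X :=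
            Nat.gcd_mul_left_dvd_mul_gcd _ _ _
          refine h3.trans ?_
          rw [pow_add, Nat.gcd_comm Y X, hk]
          exact Nat.mul_dvd_mul (Nat.gcd_dvd_left _ _) dvd_rfl
        obtain ⟨k', _, hk'⟩ := (Nat.dvd_prime_pow Nat.prime_two).1 hd
        exact ⟨k', hk'⟩
      obtain ⟨x, y, u, v, hR, e1, e2⟩ := ih (2 ^ a * Y) (X - 2 ^ a * Y) (by omega) (by omega)
        (by omega) hg
      refine ⟨2 ^ a * (x + y), x, u, a + v, R.step a x y hR, ?_, ?_⟩
      · have : 2 ^ u * (2 ^ a * (x + y)) = 2 ^ a * (2 ^ u * x + 2 ^ u * y) := by ring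
        rw [this, e1, e2, ← mul_add, show 2 ^ a * Y + (X - 2 ^ a * Y) = X by omega]
        ring
      · rw [e1]; ring

theorem alg : S_ALG := by
  intro m hm
  obtain ⟨x, y, u, v, hR, e1⟩ : ∃ x y u v, R x y ∧ 2 ^ u * x = 2 ^ v * m := by
    rcases hm.eq_or_lt with h | h
    · exact ⟨1, 1, 0, 0, R.base, by simp [← h]⟩
    · obtain ⟨x, y, u, v, hR, e1, -⟩ := descent m m (m - 1) le_rfl (by omega) (by omega)
        ⟨0, by
          have : Nat.Coprime m (m - 1) := by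
            have h1 : Nat.Coprime (m - 1 + 1) (m - 1) := by simp
            rwa [Nat.sub_add_cancel hm] at h1
          simpa using this⟩
      exact ⟨x, y, u, v, hR, e1⟩
  refine ⟨v, fun s hs => ?_⟩
  obtain ⟨y', hy'⟩ := R_pow hR (s - v + u)
  refine ⟨y', ?_⟩
  have e : 2 ^ s * m = 2 ^ (s - v + u) * x := by
    calc 2 ^ s * m = 2 ^ (s - v) * (2 ^ v * m) := by
          rw [← mul_assoc, ← pow_add, Nat.sub_add_cancel hs]
      _ = 2 ^ (s - v + u) * x := by rw [← e1]; ring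
  rw [e]; exact hy'

end Pool.Agent.H69.GN
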