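import Pool.Agent.H69.GN.Alg

set_option autoImplicit false

namespace Pool.Agent.H69.GN

open Finset

/-- the pair `(X, Y)` is realised after multiplication by a power of two; `v` is the cost -/
def Good (X Y v : ℕ) : Prop :=
  ∃ x y u, R x y ∧ 2 ^ u * x = 2 ^ v * X ∧ 2 ^ u * y = 2 ^ v * Y

lemma good_eq {X k : ℕ} (h : X = 2 ^ k) : Good X X 0 :=
  ⟨1, 1, k, R.base, by simp [h], by simp [h]⟩

lemma good_step {X Y a v : ℕ} (h : 2 ^ a * Y < X) (hg : Good (2 ^ a * Y) (X - 2 ^ a * Y) v) :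
    Good X Y (a + v) := by
  obtain ⟨x, y, u, hR, e1, e2⟩ := hg
  refine ⟨2 ^ a * (x + y), x, u, R.step a x y hR, ?_, ?_⟩
  · have : 2 ^ u * (2 ^ a * (x + y)) = 2 ^ a * (2 ^ u * x + 2 ^ u * y) := by ring
    rw [this, e1, e2, ← mul_add, show 2 ^ a * Y + (X - 2 ^ a * Y) = X by omega]
    ring
  · rw [e1]; ring

/-- an admissible state: `g` is a power of two and the gcd of `X` and `Y` -/
def Adm (X Y g : ℕ) : Prop := 1 ≤ Y ∧ Y ≤ X ∧ Nat.gcd X Y = g ∧ ∃ k, g = 2 ^ k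

lemma adm_step {X Y g : ℕ} (h : Adm X Y g) (hlt : Y < X) :
    ∃ a g', 2 ^ a * Y < X ∧ X ≤ 2 ^ (a + 1) * Y ∧ Adm (2 ^ a * Y) (X - 2 ^ a * Y) g' ∧ g ∣ g' ∧
      g' = Nat.gcd (2 ^ a * Y) X := by
  obtain ⟨hY, _, hg, k, hk⟩ := h
  obtain ⟨a, ha1, ha2⟩ := exists_two_pow Y X hY hlt
  have hpos : 1 ≤ 2 ^ a := Nat.one_le_two_pow
  have h2 : 2 ^ (a + 1) * Y = 2 ^ a * Y + 2 ^ a * Y := by ring
  have e : Nat.gcd (2 ^ a * Y) (X - 2 ^ a * Y) = Nat.gcd (2 ^ a * Y) X := by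
    rw [Nat.gcd_sub_self_right ha1.le]
  have hd : Nat.gcd (2 ^ a * Y) X ∣ 2 ^ (a + k) := by
    have h3 : Nat.gcd (2 ^ a * Y) X ∣ Nat.gcd (2 ^ a) X * Nat.gcd Y X :=
      Nat.gcd_mul_left_dvd_mul_gcd _ _ _
    refine h3.trans ?_
    rw [pow_add, Nat.gcd_comm Y X, hg, hk]
    exact Nat.mul_dvd_mul (Nat.gcd_dvd_left _ _) dvd_rfl
  obtain ⟨k', _, hk'⟩ := (Nat.dvd_prime_pow Nat.prime_two).1 hd
  refine ⟨a, Nat.gcd (2 ^ a * Y) X, ha1, ha2, ⟨by omega, by omega, e, k', hk'⟩, ?_, rfl⟩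
  rw [← hg]
  exact Nat.dvd_gcd ((Nat.gcd_dvd_right X Y).trans (dvd_mul_left _ _)) (Nat.gcd_dvd_left X Y)

lemma claim (A : ℕ) : ∀ k X Y g : ℕ, Adm X Y g → X < 2 ^ A → X * 2 ^ k ≤ g * 3 ^ k →
    ∃ v, v ≤ 3 * k * A ∧ Good X Y v := by
  intro k
  induction k with
  | zero =>
    intro X Y g h _ hk
    obtain ⟨hY, hYX, hg, j, hj⟩ := h
    have h1 : g ∣ Y := hg ▸ Nat.gcd_dvd_right X Y
    have h2 : g ≤ Y := Nat.le_of_dvd hY h1
    have h3 : X = Y := by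
      simp at hk
      omega
    have h4 : X = 2 ^ j := by
      rw [← hj, ← hg, ← h3, Nat.gcd_self]
    exact ⟨0, by omega, by rw [← h3]; exact good_eq h4⟩
  | succ k ih =>
    intro X Y g h hX hk
    have hexp : 3 * (k + 1) * A = 3 * k * A + 3 * A := by ring
    have hk' : 2 * (X * 2 ^ k) ≤ 3 * (g * 3 ^ k) := by
      calc 2 * (X * 2 ^ k) = X * 2 ^ (k + 1) := by ring
        _ ≤ g * 3 ^ (k + 1) := hk
        _ = 3 * (g * 3 ^ k) := by ring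
    -- a state which is at its end
    have hend : ∀ X Y g, Adm X Y g → X = Y → Good X Y 0 := by
      rintro X Y g ⟨_, _, hg, j, hj⟩ rfl
      rw [Nat.gcd_self] at hg
      exact good_eq (hg.trans hj)
    have hA : ∀ a X Y : ℕ, 1 ≤ Y → 2 ^ a * Y < X → X < 2 ^ A → a ≤ A := by
      intro a X Y h1 h2 h3
      by_contra hc
      have : 2 ^ A ≤ 2 ^ a := Nat.pow_le_pow_right (by norm_num) (by omega)
      nlinarith
    rcases h.2.1.eq_or_lt with he | hlt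
    · exact ⟨0, by omega, hend X Y g h he.symm⟩
    obtain ⟨a0, g1, h1a, h1b, h1, hg1, -⟩ := adm_step h hlt
    have ha0 : a0 ≤ A := hA _ _ _ h.1 h1a hX
    have hg1pos : 0 < g1 := by
      obtain ⟨j, hj⟩ := h1.2.2.2
      rw [hj]; positivity
    have hgg1 : g ≤ g1 := Nat.le_of_dvd hg1pos hg1
    set X1 := 2 ^ a0 * Y with hX1
    set Y1 := X - X1 with hY1
    by_cases hc1 : 3 * X1 ≤ 2 * X
    · obtain ⟨v, hv, hG⟩ := ih X1 Y1 g1 h1 (by omega) (by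
        have e1 : 3 * (X1 * 2 ^ k) ≤ 2 * (X * 2 ^ k) := by
          calc 3 * (X1 * 2 ^ k) = (3 * X1) * 2 ^ k := by ring
            _ ≤ (2 * X) * 2 ^ k := Nat.mul_le_mul_right _ hc1
            _ = 2 * (X * 2 ^ k) := by ring
        have e2 : g * 3 ^ k ≤ g1 * 3 ^ k := Nat.mul_le_mul_right _ hgg1
        omega)
      exact ⟨a0 + v, by omega, good_step h1a hG⟩
    rcases h1.2.1.eq_or_lt with he | hlt1
    · exact ⟨a0 + 0, by omega, good_step h1a (hend _ _ g1 h1 he.symm)⟩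
    obtain ⟨a1, g2, h2a, h2b, h2, hg2, -⟩ := adm_step h1 hlt1
    have ha1 : a1 ≤ A := hA _ _ _ h1.1 h2a (by omega)
    have hg2pos : 0 < g2 := by
      obtain ⟨j, hj⟩ := h2.2.2.2
      rw [hj]; positivity
    have hgg2 : g1 ≤ g2 := Nat.le_of_dvd hg2pos hg2
    have ha1' : a1 ≠ 0 := by
      rintro rfl
      simp at h2b
      omega
    set X2 := 2 ^ a1 * Y1 with hX2
    set Y2 := X1 - X2 with hY2
    by_cases hc2 : 3 * X2 ≤ 2 * X1
    · obtain ⟨v, hv, hG⟩ := ih X2 Y2 g2 h2 (by omega) (by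
        have e1 : 3 * (X2 * 2 ^ k) ≤ 2 * (X * 2 ^ k) := by
          calc 3 * (X2 * 2 ^ k) = (3 * X2) * 2 ^ k := by ring
            _ ≤ (2 * X) * 2 ^ k := Nat.mul_le_mul_right _ (by omega)
            _ = 2 * (X * 2 ^ k) := by ring
        have e2 : g * 3 ^ k ≤ g2 * 3 ^ k := Nat.mul_le_mul_right _ (by omega)
        omega)
      exact ⟨a0 + (a1 + v), by omega, good_step h1a (good_step h2a hG)⟩
    rcases h2.2.1.eq_or_lt with he | hlt2
    · exact ⟨a0 + (a1 + 0), by omega,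
        good_step h1a (good_step h2a (hend _ _ g2 h2 he.symm))⟩
    obtain ⟨a2, g3, h3a, h3b, h3, hg3, hg3e⟩ := adm_step h2 hlt2
    have ha2 : a2 ≤ A := hA _ _ _ h2.1 h3a (by omega)
    have hg3pos : 0 < g3 := by
      obtain ⟨j, hj⟩ := h3.2.2.2
      rw [hj]; positivity
    have ha2' : a2 ≠ 0 := by
      rintro rfl
      simp at h3b
      omega
    have hdbl : 2 * g ∣ g3 := by
      rw [hg3e]
      apply Nat.dvd_gcd
      · obtain ⟨b, rfl⟩ := Nat.exists_eq_succ_of_ne_zero ha2'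
        have : g ∣ Y2 := (hg1.trans hg2).trans (h2.2.2.1 ▸ Nat.gcd_dvd_right X2 Y2)
        rw [Nat.succ_eq_add_one, pow_succ, mul_comm (2 ^ b) 2, mul_assoc]
        exact Nat.mul_dvd_mul_left _ (this.mul_left _)
      · rw [hX2]
        obtain ⟨b, rfl⟩ := Nat.exists_eq_succ_of_ne_zero ha1'
        have : g ∣ Y1 := hg1.trans (h1.2.2.1 ▸ Nat.gcd_dvd_right X1 Y1)
        rw [Nat.succ_eq_add_one, pow_succ, mul_comm (2 ^ b) 2, mul_assoc]
        exact Nat.mul_dvd_mul_left _ (this.mul_left _)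
    have hg3' : 2 * g ≤ g3 := Nat.le_of_dvd hg3pos hdbl
    obtain ⟨v, hv, hG⟩ := ih (2 ^ a2 * Y2) (X2 - 2 ^ a2 * Y2) g3 h3 (by omega) (by
        have e1 : (2 ^ a2 * Y2) * 2 ^ k ≤ X * 2 ^ k := Nat.mul_le_mul_right _ (by omega)
        have e2 : (2 * g) * 3 ^ k ≤ g3 * 3 ^ k := Nat.mul_le_mul_right _ hg3'
        have e3 : (2 * g) * 3 ^ k = 2 * (g * 3 ^ k) := by ring
        omega)
    exact ⟨a0 + (a1 + (a2 + v)), by omega,
      good_step h1a (good_step h2a (good_step h3a hG))⟩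

theorem alg2 : ∀ m : ℕ, 1 ≤ m → ∀ s ≥ 6 * (Nat.log 2 m + 1) ^ 2, ∃ y, R (2 ^ s * m) y := by
  intro m hm s hs
  set A := Nat.log 2 m + 1 with hA
  obtain ⟨v, hv, x, y, u, hR, e1⟩ : ∃ v, v ≤ 6 * A ^ 2 ∧ ∃ x y u, R x y ∧
      2 ^ u * x = 2 ^ v * m := by
    rcases hm.eq_or_lt with h | h
    · exact ⟨0, by omega, 1, 1, 0, R.base, by simp [← h]⟩
    · have hlt : m < 2 ^ A := Nat.lt_pow_succ_log_self (by norm_num) m
      have hadm : Adm m (m - 1) 1 := by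
        refine ⟨by omega, by omega, ?_, 0, by simp⟩
        have h1 : Nat.Coprime (m - 1 + 1) (m - 1) := by simp
        rwa [Nat.sub_add_cancel hm] at h1
      obtain ⟨v, hv, x, y, u, hR, e1, -⟩ := claim A (2 * A) m (m - 1) 1 hadm hlt (by
        have e : (2 : ℕ) ^ A * 2 ^ (2 * A) ≤ 3 ^ (2 * A) := by
          rw [pow_mul, pow_mul, ← mul_pow]
          exact Nat.pow_le_pow_left (by norm_num) A
        calc m * 2 ^ (2 * A) ≤ 2 ^ A * 2 ^ (2 * A) := Nat.mul_le_mul_right _ hlt.le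
          _ ≤ 1 * 3 ^ (2 * A) := by rw [one_mul]; exact e)
      exact ⟨v, by nlinarith, x, y, u, hR, e1⟩
  obtain ⟨y', hy'⟩ := R_pow hR (s - v + u)
  refine ⟨y', ?_⟩
  have e : 2 ^ s * m = 2 ^ (s - v + u) * x := by
    calc 2 ^ s * m = 2 ^ (s - v) * (2 ^ v * m) := by
          rw [← mul_assoc, ← pow_add, Nat.sub_add_cancel (by omega)]
      _ = 2 ^ (s - v + u) * x := by rw [← e1]; ring
  rw [e]; exact hy'

end Pool.Agent.H69.GN
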