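import Pool.Agent.H69.GN.Stm

set_option autoImplicit false

namespace Pool.Agent.H69.GN

open Finset

/-- the non-root members of `V` -/
abbrev NR (V : Finset ℕ) : Type := {p : ℕ // p ∈ V ∧ ∃ q ∈ V, p ∣ q - 1}

/-- the forest of a nice set -/
def fg (V : Finset ℕ) : SimpleGraph (NR V) where
  Adj p q := p ≠ q ∧ (p.1 ∣ q.1 - 1 ∨ q.1 ∣ p.1 - 1)
  symm := ⟨fun _ _ h => ⟨h.1.symm, h.2.symm⟩⟩
  loopless := ⟨fun _ h => h.1 rfl⟩

lemma dvd_lt {V : Finset ℕ} (hV : Nice V) {p q : ℕ} (hp : p ∈ V) (hq : q ∈ V)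
    (h : p ∣ q - 1) : p < q := by
  have h1 := (hV.1 q hq).2
  have h2 := (hV.1 p hp).2
  have := Nat.le_of_dvd (by omega) h
  omega

lemma fg_acyclic {V : Finset ℕ} (hV : Nice V) : (fg V).IsAcyclic := by
  classical
  intro v c hc
  obtain ⟨m, hm, hmin⟩ := Finset.exists_min_image c.support.toFinset (fun w : NR V => w.1)
    ⟨v, by simp⟩
  rw [List.mem_toFinset] at hm
  have hc' := hc.rotate hm
  have hnil : ¬ (c.rotate m hm).Nil := hc'.not_nil
  have h1 := (c.rotate m hm).adj_snd hnil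
  have h2 := (c.rotate m hm).adj_penultimate hnil
  have hne := hc'.snd_ne_penultimate
  have key : ∀ w : NR V, w ∈ (c.rotate m hm).support → (fg V).Adj m w → m.1 ∣ w.1 - 1 := by
    intro w hw hadj
    rcases hadj.2 with h | h
    · exact h
    · exfalso
      have hlt := dvd_lt hV w.2.1 m.2.1 h
      have hw' : w ∈ c.support.toFinset := by
        rw [List.mem_toFinset]
        exact (SimpleGraph.Walk.mem_support_rotate_iff c m hm).1 hw
      have := hmin w hw'
      omega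
  have e1 := key _ ((c.rotate m hm).getVert_mem_support 1) h1
  have e2 := key _ ((c.rotate m hm).getVert_mem_support _) h2.symm
  exact hne (Subtype.ext (hV.2 m.1 m.2.1 _ (c.rotate m hm).snd.2.1 _
    (c.rotate m hm).penultimate.2.1 e1 e2))

/-- the number of the sets for a nice set is the number of the independent sets of its forest -/
lemma f_eq_indep {V : Finset ℕ} (hV : Nice V) :
    f V = Nat.card {S : Finset (NR V) // ∀ x ∈ S, ∀ y ∈ S, ¬ (fg V).Adj x y} := by
  classical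
  have h1 : f V = Nat.card {D : Finset ℕ // D ⊆ V ∧ ∀ p ∈ D, ∃ q ∈ V \ D, p ∣ q - 1} := by
    unfold f
    symm
    apply Nat.subtype_card
    intro D
    rw [mem_filter, mem_powerset]
  rw [h1]
  symm
  apply Nat.card_congr
  refine Equiv.ofBijective (fun S => ⟨S.1.image Subtype.val, ?_, ?_⟩) ⟨?_, ?_⟩
  · intro p hp
    obtain ⟨w, _, rfl⟩ := mem_image.1 hp
    exact w.2.1
  · intro p hp
    obtain ⟨w, hw, rfl⟩ := mem_image.1 hp
    obtain ⟨q, hq, hd⟩ := w.2.2
    refine ⟨q, mem_sdiff.2 ⟨hq, ?_⟩, hd⟩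
    intro hq'
    obtain ⟨w', hw', rfl⟩ := mem_image.1 hq'
    refine S.2 w hw w' hw' ⟨?_, Or.inl hd⟩
    intro e
    have := dvd_lt hV w.2.1 w'.2.1 hd
    rw [e] at this
    exact lt_irrefl _ this
  · intro S S' h
    apply Subtype.ext
    exact Finset.image_injective Subtype.val_injective (congrArg Subtype.val h)
  · rintro ⟨D, hD1, hD2⟩
    have key : ∀ x y : NR V, x.1 ∈ D → y.1 ∈ D → ¬ x.1 ∣ y.1 - 1 := by
      intro x y hx hy hd
      obtain ⟨q, hq, hd'⟩ := hD2 x.1 hx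
      rw [mem_sdiff] at hq
      have := hV.2 x.1 x.2.1 y.1 y.2.1 q hq.1 hd hd'
      exact hq.2 (this ▸ hy)
    have hpar : ∀ p ∈ D, p ∈ V ∧ ∃ q ∈ V, p ∣ q - 1 := by
      intro p hp
      obtain ⟨q, hq, hd⟩ := hD2 p hp
      exact ⟨hD1 hp, q, (mem_sdiff.1 hq).1, hd⟩
    refine ⟨⟨D.attach.image (fun d => (⟨d.1, hpar d.1 d.2⟩ : NR V)), ?_⟩, ?_⟩
    · intro x hx y hy hadj
      obtain ⟨d, _, rfl⟩ := mem_image.1 hx
      obtain ⟨d', _, rfl⟩ := mem_image.1 hy
      rcases hadj.2 with h | h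
      · exact key _ _ d.2 d'.2 h
      · exact key _ _ d'.2 d.2 h
    · apply Subtype.ext
      ext p
      constructor
      · intro hp
        obtain ⟨w, hw, rfl⟩ := mem_image.1 hp
        obtain ⟨d, _, rfl⟩ := mem_image.1 hw
        exact d.2
      · intro hp
        exact mem_image.2 ⟨⟨p, hpar p hp⟩, mem_image.2 ⟨⟨p, hp⟩, mem_attach _ _, rfl⟩, rfl⟩

/-- CON. Conversely each `f V` is the number of the independent sets of a finite forest. -/
theorem con (V : Finset ℕ) (hV : Nice V) :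
    ∃ (W : Type) (_ : Finite W) (G : SimpleGraph W), G.IsAcyclic ∧
      f V = Nat.card {S : Finset W // ∀ x ∈ S, ∀ y ∈ S, ¬ G.Adj x y} := by
  have hfin : Finite (NR V) :=
    Finite.of_injective (fun w : NR V => (⟨w.1, w.2.1⟩ : {p // p ∈ V})) (by
      intro a b h
      exact Subtype.ext (congrArg (fun t : {p // p ∈ V} => t.1) h))
  exact ⟨NR V, hfin, fg V, fg_acyclic hV, f_eq_indep hV⟩

end Pool.Agent.H69.GN
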