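import Pool.Agent.H69.GN.Stm

set_option autoImplicit false

namespace Pool.Agent.H69.GN

open Finset

lemma f_empty : f ∅ = 1 := by
  classical
  have : ((∅ : Finset ℕ).powerset.filter (fun D => ∀ p ∈ D, ∃ q ∈ (∅ : Finset ℕ) \ D, p ∣ q - 1))
      = {∅} := by
    ext D
    simp only [mem_filter, mem_powerset, mem_singleton, Finset.subset_empty]
    constructor
    · rintro ⟨h1, -⟩
      exact h1
    · rintro rfl
      simp
  unfold f
  rw [Finset.card_eq_one]
  refine ⟨∅, ?_⟩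
  convert this

lemma f_three : f {3} = 1 := by
  classical
  have : (({3} : Finset ℕ).powerset.filter (fun D => ∀ p ∈ D, ∃ q ∈ ({3} : Finset ℕ) \ D, p ∣ q - 1))
      = {∅} := by
    ext D
    simp only [mem_filter, mem_powerset, mem_singleton]
    constructor
    · rintro ⟨h1, h2⟩
      rcases Finset.subset_singleton_iff.1 h1 with h | h
      · exact h
      · exfalso
        subst h
        obtain ⟨q, hq, -⟩ := h2 3 (by simp)
        simp at hq
    · rintro rfl
      simp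
  unfold f
  rw [Finset.card_eq_one]
  refine ⟨∅, ?_⟩
  convert this

theorem realize (hRNI : S_RNI) (hRUN : S_RUN) (hRIN : S_RIN) (hEXI : S_EXI) :
    ∀ x y : ℕ, R x y → ∃ (V : Finset ℕ) (r : ℕ), Nice V ∧ r ∈ V ∧ (∀ q ∈ V, ¬ r ∣ q - 1) ∧
      f V = x ∧ f (V.erase r) = y := by
  intro x y h
  induction h with
  | base =>
    refine ⟨{3}, 3, ⟨?_, ?_⟩, by simp, ?_, f_three, ?_⟩
    · intro p hp
      rw [mem_singleton] at hp
      subst hp
      exact ⟨Nat.prime_three, le_rfl⟩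
    · intro p _ q hq q' hq' _ _
      rw [mem_singleton] at hq hq'
      rw [hq, hq']
    · intro q hq
      rw [mem_singleton] at hq
      subst hq
      decide
    · have : ({3} : Finset ℕ).erase 3 = ∅ := by decide
      rw [this]
      exact f_empty
  | step a x y _ ih =>
    obtain ⟨V, r, hV, hr, hroot, hx, hy⟩ := ih
    obtain ⟨P, t, hPa, hF⟩ := hEXI V r a hV.1 hr
    have hF' := hF
    obtain ⟨-, -, -, -, -, ht3, htn, -, ht⟩ := hF'
    refine ⟨insert t (V ∪ P), t, hRNI V P r t hV hr hroot hF, mem_insert_self _ _, ?_, ?_, ?_⟩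
    · intro q hq
      rcases mem_insert.1 hq with h | h
      · subst h
        intro hd
        have := Nat.le_of_dvd (by omega) hd
        omega
      · exact ht q h
    · rw [hRIN V P r t hV hr hroot hF, hPa, hx, hy]
    · rw [Finset.erase_insert htn, hRUN V P r t hV hr hroot hF, hx]

lemma squarefree_prod (V : Finset ℕ) (hV : ∀ p ∈ V, p.Prime) : Squarefree (∏ v ∈ V, v) := by
  classical
  induction V using Finset.induction_on with
  | empty => simp
  | insert a s ha ih =>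
    rw [Finset.prod_insert ha, Nat.squarefree_mul]
    · exact ⟨(hV a (mem_insert_self _ _)).prime.squarefree,
        ih fun p hp => hV p (mem_insert_of_mem hp)⟩
    · refine Nat.Coprime.prod_right fun p hp => ?_
      refine (Nat.coprime_primes (hV a (mem_insert_self _ _)) (hV p (mem_insert_of_mem hp))).2 ?_
      rintro rfl
      exact ha hp

lemma odd_prod (V : Finset ℕ) (hV : ∀ p ∈ V, p.Prime ∧ 3 ≤ p) : Odd (∏ v ∈ V, v) := by
  classical
  induction V using Finset.induction_on with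
  | empty => simp
  | insert a s ha ih =>
    rw [Finset.prod_insert ha]
    refine Odd.mul ?_ (ih fun p hp => hV p (mem_insert_of_mem hp))
    have := hV a (mem_insert_self _ _)
    exact this.1.odd_of_ne_two (by omega)

theorem main (hGNU : S_GNU) (hCNT : S_CNT) (hRNI : S_RNI) (hRUN : S_RUN) (hRIN : S_RIN)
    (hEXI : S_EXI) (hALG : S_ALG) :
    ∀ m : ℕ, 1 ≤ m → ∃ s0 : ℕ, ∀ s ≥ s0, ∃ n : ℕ, Odd n ∧ Squarefree n ∧ gnu n = 2 ^ s * m := by
  intro m hm
  obtain ⟨s0, hs0⟩ := hALG m hm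
  refine ⟨s0, fun s hs => ?_⟩
  obtain ⟨y, hy⟩ := hs0 s hs
  obtain ⟨V, r, hV, -, -, hx, -⟩ := realize hRNI hRUN hRIN hEXI _ _ hy
  have hsq := squarefree_prod V (fun p hp => (hV.1 p hp).1)
  exact ⟨∏ v ∈ V, v, odd_prod V hV.1, hsq, by rw [hGNU _ hsq, hCNT V hV, hx]⟩

theorem ratio (h : ∀ m : ℕ, 1 ≤ m → ∃ s0 : ℕ, ∀ s ≥ s0, ∃ n : ℕ,
      Odd n ∧ Squarefree n ∧ gnu n = 2 ^ s * m) :
    ∀ q : ℚ, 0 < q → ∃ n n' : ℕ, Odd n ∧ Squarefree n ∧ Odd n' ∧ Squarefree n' ∧
      0 < gnu n' ∧ q = (gnu n : ℚ) / gnu n' := by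
  intro q hq
  have hnum : 1 ≤ q.num.toNat := by
    have := Rat.num_pos.2 hq
    omega
  obtain ⟨s1, h1⟩ := h q.num.toNat hnum
  obtain ⟨s2, h2⟩ := h q.den q.den_pos
  obtain ⟨n, ho, hsq, hn⟩ := h1 (max s1 s2) (le_max_left _ _)
  obtain ⟨n', ho', hsq', hn'⟩ := h2 (max s1 s2) (le_max_right _ _)
  refine ⟨n, n', ho, hsq, ho', hsq', ?_, ?_⟩
  · rw [hn']
    have := q.den_pos
    positivity
  · rw [hn, hn']
    push_cast
    have e : ((q.num.toNat : ℕ) : ℚ) = q.num := by
      have h0 : ((q.num.toNat : ℕ) : ℤ) = q.num := Int.toNat_of_nonneg (Rat.num_pos.2 hq).le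
      exact_mod_cast congrArg (Int.cast : ℤ → ℚ) h0
    rw [e, mul_div_mul_left _ _ (by positivity)]
    exact (Rat.num_div_den q).symm

end Pool.Agent.H69.GN
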