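import Pool.Agent.H69.GN.Stm2
import Pool.Agent.H69.GN.Fin

set_option autoImplicit false

namespace Pool.Agent.H69.GN

open Finset

open Classical in
theorem forest (hGNU : S_GNU) (hCNT : S_CNT) (hORD : S_ORD) (hPRM : S_PRM) (hFCT : S_FCT)
    (hIND : S_IND) : ∀ (V : Type) [Fintype V] (G : SimpleGraph V), G.IsAcyclic →
    ∃ n : ℕ, Odd n ∧ Squarefree n ∧
      gnu n = (univ.filter fun S : Finset V => ∀ x ∈ S, ∀ y ∈ S, ¬ G.Adj x y).card := by
  intro V _ G hG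
  obtain ⟨k, e, par, hpar, hadj⟩ := hORD V G hG
  obtain ⟨p, hp, hmono, hdvd⟩ := hPRM k par hpar
  obtain ⟨hN, hf⟩ := hFCT k par hpar p hp hmono hdvd
  have hsq := squarefree_prod (univ.image p) (fun q hq => (hN.1 q hq).1)
  refine ⟨∏ v ∈ univ.image p, v, odd_prod _ hN.1, hsq, ?_⟩
  rw [hGNU _ hsq, hCNT _ hN, hf, hIND V G k e par hpar hadj]

end Pool.Agent.H69.GN
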