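import Mathlib

/-!
Crew GN, `MP_d11331_al` (surjectivity of the group number function): for every `m ≥ 1` the number
`2 ^ s * m` is a group number for all large `s`.  Definitions and statements of the parts.
-/

set_option autoImplicit false

namespace Pool.Agent.H69.GN

open Finset

/-- a finite group with exactly `n` elements -/
structure FinGrp (n : ℕ) : Type 1 where
  /-- the underlying type -/
  carrier : Type
  /-- the group structure -/
  [grp : Group carrier]
  /-- it is finite -/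
  [fin : Finite carrier]
  /-- it has `n` elements -/
  card_eq : Nat.card carrier = n

attribute [instance] FinGrp.grp FinGrp.fin

/-- isomorphism of groups with `n` elements -/
instance isoSetoid (n : ℕ) : Setoid (FinGrp n) where
  r G H := Nonempty (G.carrier ≃* H.carrier)
  iseqv :=
    { refl := fun _ => ⟨MulEquiv.refl _⟩
      symm := fun ⟨e⟩ => ⟨e.symm⟩
      trans := fun ⟨e⟩ ⟨f⟩ => ⟨e.trans f⟩ }

/-- the number of groups of order `n` up to isomorphism -/
noncomputable def gnu (n : ℕ) : ℕ := Nat.card (Quotient (isoSetoid n))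

/-- the action of a subgroup of `(ℤ/m)ˣ` on `ℤ/m` -/
def act (m : ℕ) (U : Subgroup (ZMod m)ˣ) : U →* MulAut (Multiplicative (ZMod m)) :=
  ((MulAutMultiplicative (ZMod m)).symm.toMonoidHom.comp
    (DistribMulAction.toAddAut (ZMod m)ˣ (ZMod m))).comp U.subtype

/-- the semidirect product `ℤ/m ⋊ U` -/
abbrev SD (m : ℕ) (U : Subgroup (ZMod m)ˣ) : Type :=
  Multiplicative (ZMod m) ⋊[act m U] U

/-- NOR. A group of squarefree order has a normal cyclic subgroup which contains its centralizer.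
(`IsZGroup`: the commutator subgroup `K` is cyclic and `G / K` is cyclic of coprime order. Take
`N = centralizer K`: `N / K` cyclic and `K` central in `N`, so `N` is abelian, of squarefree order,
so cyclic; `centralizer N ≤ centralizer K = N` as `K ≤ N`.) -/
def S_NOR : Prop := ∀ (G : Type) [Group G] [Finite G], Squarefree (Nat.card G) →
    ∃ N : Subgroup G, N.Normal ∧ IsCyclic N ∧ Subgroup.centralizer (N : Set G) ≤ N

/-- SPL. (Schur-Zassenhaus: `N` has a complement `H`; `G ≃* N ⋊ H`; `N ≃* Multiplicative (ZMod m)`,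
`m = Nat.card N`; the action `H → MulAut N ≃ (ZMod m)ˣ` is injective; `U` = its image.) -/
def S_SPL : Prop := ∀ (G : Type) [Group G] [Finite G], Squarefree (Nat.card G) →
    ∀ N : Subgroup G, N.Normal → IsCyclic N → Subgroup.centralizer (N : Set G) ≤ N →
    ∃ (m : ℕ) (U : Subgroup (ZMod m)ˣ), 0 < m ∧ m * Nat.card U = Nat.card G ∧
      Nonempty (G ≃* SD m U)

/-- CEN. In a group of squarefree order two normal cyclic subgroups which contain their
centralizers are equal. (`M = N ⊔ N'` has squarefree order, `N ⊓ N'` is central in `M`, the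
commutator `⁅N, N'⁆ ≤ N ⊓ N'`, so `M` is nilpotent, so (squarefree order) abelian; so
`N' ≤ centralizer N ≤ N` and conversely.) -/
def S_CEN : Prop := ∀ (G : Type) [Group G] [Finite G], Squarefree (Nat.card G) →
    ∀ N N' : Subgroup G, N.Normal → IsCyclic N → Subgroup.centralizer (N : Set G) ≤ N →
    N'.Normal → IsCyclic N' → Subgroup.centralizer (N' : Set G) ≤ N' → N = N'

/-- UNQ. (from `S_CEN`.) `N = (SemidirectProduct.inl).range` is normal, cyclic and contains its
centralizer (the action of `U` is faithful); an isomorphism carries it to the corresponding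
subgroup, so `m = m'`; and `U` is the set of the exponents `u` such that some element of the group
acts on the cyclic group `N` by conjugation as `x ↦ x ^ u`, so `U = U'`. -/
def S_UNQ : Prop := ∀ (m m' : ℕ) (U : Subgroup (ZMod m)ˣ) (U' : Subgroup (ZMod m')ˣ),
    0 < m → 0 < m' → Squarefree (m * Nat.card U) → m * Nat.card U = m' * Nat.card U' →
    Nonempty (SD m U ≃* SD m' U') →
    (⟨m, U⟩ : Σ k : ℕ, Subgroup (ZMod k)ˣ) = ⟨m', U'⟩

/-- GNU. (from `S_NOR`, `S_SPL`, `S_UNQ`.) The map `(m, U) ↦ SD m U` is a bijection onto the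
isomorphism classes. -/
def S_GNU : Prop := ∀ n : ℕ, Squarefree n →
    gnu n = Nat.card {p : Σ k : ℕ, Subgroup (ZMod k)ˣ // 0 < p.1 ∧ p.1 * Nat.card p.2 = n}

/-- primes at least `3`, each dividing `q - 1` for at most one member `q` -/
def Nice (V : Finset ℕ) : Prop :=
  (∀ p ∈ V, p.Prime ∧ 3 ≤ p) ∧
    ∀ p ∈ V, ∀ q ∈ V, ∀ q' ∈ V, p ∣ q - 1 → p ∣ q' - 1 → q = q'

open Classical in
/-- the number of the sets `D ⊆ V` such that each `p ∈ D` divides `q - 1` for some `q ∈ V \ D` -/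
noncomputable def f (V : Finset ℕ) : ℕ :=
  (V.powerset.filter (fun D => ∀ p ∈ D, ∃ q ∈ V \ D, p ∣ q - 1)).card

/-- TOR. Chinese remainder theorem for the units and cyclicity of `(ZMod q)ˣ`
(`IsCyclic.card_pow_eq_one_le`, `IsCyclic.card_powMonoidHom...`, or the count of the solutions of
`x ^ d = 1` in a cyclic group of order `N` is `gcd d N`). Induction on `W` with
`ZMod.chineseRemainder` and `MulEquiv.prodUnits`. -/
def S_TOR : Prop := ∀ (W : Finset ℕ), (∀ q ∈ W, q.Prime) → ∀ d : ℕ, 0 < d →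
    Nat.card {x : (ZMod (∏ q ∈ W, q))ˣ // x ^ d = 1} = ∏ q ∈ W, Nat.gcd d (q - 1)

/-- GCP. For squarefree `d = ∏ D` one has `gcd d k = ∏_{p ∈ D, p ∣ k} p`; exchange the products;
for each `p ∈ D` at most one `q ∈ V \ D` occurs (`Nice`). -/
def S_GCP : Prop := ∀ V D : Finset ℕ, Nice V → D ⊆ V →
    ∏ q ∈ V \ D, Nat.gcd (∏ p ∈ D, p) (q - 1) =
      ∏ p ∈ D with ∃ q ∈ V \ D, p ∣ q - 1, p

/-- CNT (from `S_TOR` and `S_GCP`). Bijection `D ↦ (m, U)` with `d = ∏ D`, `m = ∏ (V \ D)`,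
`U = {x : x ^ d = 1}` (`(powMonoidHom d).ker`):
`#{x ∈ (ZMod m)ˣ : x ^ d = 1} = ∏_{q ∈ V \ D} gcd d (q - 1)`, which is `d` if each `p ∈ D` divides
`q - 1` for some (exactly one) `q ∈ V \ D`. A subgroup `U` of order `d` lies in `{x : x ^ d = 1}`,
so `d ≤ ∏_{p ∈ D, good} p`, so all `p ∈ D` are good and `U = {x : x ^ d = 1}`. The divisors of
`∏ V` are the `∏ D`, `D ⊆ V`. -/
def S_CNT : Prop := ∀ V : Finset ℕ, Nice V →
    Nat.card {p : Σ k : ℕ, Subgroup (ZMod k)ˣ // 0 < p.1 ∧ p.1 * Nat.card p.2 = ∏ v ∈ V, v} = f V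

/-- a fresh set `P` of leaves and a new prime `t` above `r` and the members of `P` -/
def Fresh (V P : Finset ℕ) (r t : ℕ) : Prop :=
  (∀ p ∈ P, p.Prime ∧ 3 ≤ p) ∧ Disjoint V P ∧
  (∀ p ∈ P, ∀ q ∈ V ∪ P, ¬ p ∣ q - 1) ∧ (∀ p ∈ V, ∀ q ∈ P, ¬ p ∣ q - 1) ∧
  t.Prime ∧ 3 ≤ t ∧ t ∉ V ∪ P ∧ (∀ p ∈ V ∪ P, p ∣ t - 1 ↔ (p = r ∨ p ∈ P)) ∧
  ∀ q ∈ V ∪ P, ¬ t ∣ q - 1

/-- RNI. No new coincidence: `p ∈ P` is only below `t`; `r` is only below `t`; `t` is below
nothing (`t ∣ t - 1` fails). -/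
def S_RNI : Prop := ∀ (V P : Finset ℕ) (r t : ℕ), Nice V → r ∈ V → (∀ q ∈ V, ¬ r ∣ q - 1) →
    Fresh V P r t → Nice (insert t (V ∪ P))

/-- RUN. A set for `V ∪ P` contains no member of `P`, and nothing of `V` is below `P`. -/
def S_RUN : Prop := ∀ (V P : Finset ℕ) (r t : ℕ), Nice V → r ∈ V → (∀ q ∈ V, ¬ r ∣ q - 1) →
    Fresh V P r t → f (V ∪ P) = f V

/-- RIN. Count the sets `D ⊆ insert t (V ∪ P)`: `t ∉ D` (nothing above `t`); members of `P` are
free (their top `t` is outside `D`); `D ∩ V` either avoids `r` (then it is a set for `V`: note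
that no set for `V` contains `r`) or is `insert r D'` with `D'` a set for `V.erase r`. So the sets
`D` are in bijection with `powerset P × (sets for V ⊔ sets for V.erase r)`. -/
def S_RIN : Prop := ∀ (V P : Finset ℕ) (r t : ℕ), Nice V → r ∈ V → (∀ q ∈ V, ¬ r ∣ q - 1) →
    Fresh V P r t → f (insert t (V ∪ P)) = 2 ^ P.card * (f V + f (V.erase r))

/-- EXI. Dirichlet (`Nat.forall_exists_prime_gt_and_eq_mod` / `Nat.setOf_prime_and_eq_mod_infinite`)
and the Chinese remainder theorem: new primes are larger than all earlier ones, `≡ 1` modulo the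
wanted primes and `≡ 2` modulo the others. -/
def S_EXI : Prop := ∀ (V : Finset ℕ) (r a : ℕ), (∀ p ∈ V, p.Prime ∧ 3 ≤ p) → r ∈ V →
    ∃ (P : Finset ℕ) (t : ℕ), P.card = a ∧ Fresh V P r t

/-- the pairs `(number of sets, number of sets without the root)` of the caterpillars -/
inductive R : ℕ → ℕ → Prop
  | base : R 1 1
  | step (a x y : ℕ) : R x y → R (2 ^ a * (x + y)) x

/-- ALG. Strong induction on `X` for `∃ x y u v, R x y ∧ 2^u x = 2^v X ∧ 2^u y = 2^v Y` for
`1 ≤ Y ≤ X` with `gcd X Y` a power of `2`: if `Y < X` take `a` with `2^a Y < X ≤ 2^(a+1) Y` and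
pass to `(2^a Y, X - 2^a Y)`. Then `(X, Y) = (m, m - 1)`, and `R x y → ∃ y', R (2^j x) y'`. -/
def S_ALG : Prop := ∀ m : ℕ, 1 ≤ m → ∃ s0 : ℕ, ∀ s ≥ s0, ∃ y, R (2 ^ s * m) y

end Pool.Agent.H69.GN
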