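import Pool.Agent.H69.GN.Stm

/-!
Crew GN, second theorem (`MP_d11331_al`): the number of the independent sets of every finite forest
is a group number `gnu n`, `n` odd and squarefree.  Statements of the parts.
-/

set_option autoImplicit false

namespace Pool.Agent.H69.GN

open Finset

/-- ORD. Order the vertices of a forest so that each vertex has at most one larger neighbour
(`par i`; `par i = Fin.last k` if there is none). Induction on the number of vertices: an acyclic
graph with a vertex has a vertex of degree at most `1` (e.g. the end of a maximal path, or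
`SimpleGraph.IsTree.exists_vert_degree_one_of_nontrivial` in a component; or: an acyclic graph has
fewer edges than vertices); remove it, order the rest, and give it the number `0`. -/
def S_ORD : Prop := ∀ (V : Type) [Fintype V] (G : SimpleGraph V), G.IsAcyclic →
    ∃ (k : ℕ) (e : V ≃ Fin k) (par : Fin k → Fin (k + 1)), (∀ i, i.castSucc < par i) ∧
      ∀ i j : Fin k, i < j → (G.Adj (e.symm i) (e.symm j) ↔ par i = j.castSucc)

/-- PRM. Induction on the number of the primes chosen (Dirichlet and the Chinese remainder theorem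
as in `S_EXI`): `p j` is larger than the earlier primes, `≡ 1` modulo `p i` if `par i = j` and
`≡ 2` modulo the other earlier primes. Prove it for all `m` and arbitrary relation:
`∀ m (rel : ℕ → ℕ → Prop), ∃ p : ℕ → ℕ, ∀ j < m, prime, 3 ≤ p j, ∀ i < j, p i < p j ∧
(p i ∣ p j - 1 ↔ rel i j)`. -/
def S_PRM : Prop := ∀ (k : ℕ) (par : Fin k → Fin (k + 1)), (∀ i, i.castSucc < par i) →
    ∃ p : Fin (k + 1) → ℕ, (∀ i, (p i).Prime ∧ 3 ≤ p i) ∧ StrictMono p ∧
      ∀ (i : Fin k) (j : Fin (k + 1)), i.castSucc < j → (p i.castSucc ∣ p j - 1 ↔ j = par i)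

open Classical in
/-- FCT. `V = p '' univ` is `Nice`: `p i ∣ p j - 1` implies `i < j` (as `p j - 1 < p i` otherwise,
and `p j - 1 ≥ 2 > 0`), so `j = par i`. The sets counted by `f V` are the images of the sets `D` of
indices with `last ∉ D` (nothing is above the last prime) and `par i ∉ D` for `i ∈ D`. -/
def S_FCT : Prop := ∀ (k : ℕ) (par : Fin k → Fin (k + 1)), (∀ i, i.castSucc < par i) →
    ∀ p : Fin (k + 1) → ℕ, (∀ i, (p i).Prime ∧ 3 ≤ p i) → StrictMono p →
    (∀ (i : Fin k) (j : Fin (k + 1)), i.castSucc < j → (p i.castSucc ∣ p j - 1 ↔ j = par i)) →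
    Nice (univ.image p) ∧
    f (univ.image p) =
      (univ.filter fun D : Finset (Fin k) => ∀ i ∈ D, ∀ j ∈ D, par i ≠ j.castSucc).card

open Classical in
/-- IND. The independent sets of `G` correspond under `e` to the index sets `D` such that
`par i ≠ j` for `i, j ∈ D` (for `i < j` by hypothesis; for `j ≤ i` automatic since `i < par i`). -/
def S_IND : Prop := ∀ (V : Type) [Fintype V] (G : SimpleGraph V) (k : ℕ) (e : V ≃ Fin k)
    (par : Fin k → Fin (k + 1)), (∀ i, i.castSucc < par i) →
    (∀ i j : Fin k, i < j → (G.Adj (e.symm i) (e.symm j) ↔ par i = j.castSucc)) →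
    (univ.filter fun S : Finset V => ∀ x ∈ S, ∀ y ∈ S, ¬ G.Adj x y).card =
      (univ.filter fun D : Finset (Fin k) => ∀ i ∈ D, ∀ j ∈ D, par i ≠ j.castSucc).card

end Pool.Agent.H69.GN
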